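import Pool.Agent.V5helper51.EG.Stm
import Pool.Agent.V5helper3.PL.RJMc
import Pool.Agent.V5helper7.PL.FA

set_option autoImplicit false

/-! Project EG, job CJM (helper7): the joint moments with a complex first exponent, upper bound -/

namespace Pool.Agent.V5helper7.EG.CJM

open Finset Filter MeasureTheory Topology Complex
open Pool.Agent.N748.MG Pool.Agent.N748.MJ
open Pool.Agent.V5helper51.PL Pool.Agent.V5helper51.EG

/-- the exponents -/
noncomputable def bb {m : ℕ} (k0 ξ : ℝ) (k : Fin m → ℝ) : Fin (m + 1) → ℂ :=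
  Matrix.vecCons ((k0 : ℂ) + ξ / 2 * I) (V5helper3.PL.cc k)

/-- the shifts -/
noncomputable def hh {m : ℕ} (h : Fin m → ℝ) : Fin (m + 1) → ℝ := Matrix.vecCons 0 h

lemma bb0 {m : ℕ} (k0 ξ : ℝ) (k : Fin m → ℝ) : bb k0 ξ k 0 = (k0 : ℂ) + ξ / 2 * I := rfl

lemma bbs {m : ℕ} (k0 ξ : ℝ) (k : Fin m → ℝ) (j : Fin m) : bb k0 ξ k j.succ = (k j : ℂ) := rfl

lemma hh0 {m : ℕ} (h : Fin m → ℝ) : hh h 0 = 0 := rfl

lemma hhs {m : ℕ} (h : Fin m → ℝ) (j : Fin m) : hh h j.succ = h j := rfl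

lemma bb_real {m : ℕ} (k0 : ℝ) (k : Fin m → ℝ) : bb k0 0 k = V5helper3.PL.cc (Matrix.vecCons k0 k) := by
  funext j
  refine Fin.cases ?_ (fun j => ?_) j
  · simp [bb0, V5helper3.PL.cc]
  · simp [bbs, V5helper3.PL.cc]

lemma re_LM {m : ℕ} {δ : ℝ} (hδ : 0 < δ) (k0 ξ : ℝ) (k h : Fin m → ℝ) :
    (LM (bb k0 ξ k) (bb k0 ξ k) (hh h) δ).re =
      (k0 ^ 2 - ξ ^ 2 / 4) * (LZ (1 + 2 * δ) 0).re + (∑ j, 2 * (k0 * k j) * (LZ (1 + 2 * δ) (h j)).re) +
        V5helper3.PL.Lr k h δ := by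
  unfold LM
  have e1 : ∀ j : Fin m, ∑ l, bb k0 ξ k j.succ * bb k0 ξ k l * LZ (1 + 2 * δ) (hh h j.succ - hh h l) =
      (k j : ℂ) * ((k0 : ℂ) + ξ / 2 * I) * LZ (1 + 2 * δ) (h j) +
        ∑ l, (k j : ℂ) * (k l : ℂ) * LZ (1 + 2 * δ) (h j - h l) := by
    intro j
    rw [Fin.sum_univ_succ]
    simp only [bb0, bbs, hh0, hhs, sub_zero]
  have e2 : ∑ l, bb k0 ξ k 0 * bb k0 ξ k l * LZ (1 + 2 * δ) (hh h 0 - hh h l) =
      ((k0 : ℂ) + ξ / 2 * I) * ((k0 : ℂ) + ξ / 2 * I) * LZ (1 + 2 * δ) 0 +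
        ∑ j, ((k0 : ℂ) + ξ / 2 * I) * (k j : ℂ) * (starRingEnd ℂ) (LZ (1 + 2 * δ) (h j)) := by
    rw [Fin.sum_univ_succ]
    simp only [bb0, bbs, hh0, hhs, sub_self, zero_sub]
    congr 1
    refine Finset.sum_congr rfl fun j _ => ?_
    rw [PL.FA.LZ_neg hδ]
  rw [Fin.sum_univ_succ, e2]
  simp_rw [e1]
  rw [Finset.sum_add_distrib]
  have e3 : (∑ j, ∑ l, (k j : ℂ) * (k l : ℂ) * LZ (1 + 2 * δ) (h j - h l)).re = V5helper3.PL.Lr k h δ := by
    rw [← V5helper3.PL.LM_re]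
    rfl
  have e4 : (((k0 : ℂ) + ξ / 2 * I) * ((k0 : ℂ) + ξ / 2 * I) * LZ (1 + 2 * δ) 0).re =
      (k0 ^ 2 - ξ ^ 2 / 4) * (LZ (1 + 2 * δ) 0).re := by
    have h0 := PL.FA.LZ_zero_im hδ
    simp only [Complex.add_re, Complex.mul_re, Complex.add_im, Complex.mul_im, Complex.ofReal_re,
      Complex.ofReal_im, Complex.I_re, Complex.I_im, h0, Complex.div_ofNat_re, Complex.div_ofNat_im]
    ring
  have e5 : (∑ j, ((k0 : ℂ) + ξ / 2 * I) * (k j : ℂ) * (starRingEnd ℂ) (LZ (1 + 2 * δ) (h j))).re +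
      (∑ j, (k j : ℂ) * ((k0 : ℂ) + ξ / 2 * I) * LZ (1 + 2 * δ) (h j)).re =
      ∑ j, 2 * (k0 * k j) * (LZ (1 + 2 * δ) (h j)).re := by
    rw [Complex.re_sum, Complex.re_sum, ← Finset.sum_add_distrib]
    refine Finset.sum_congr rfl fun j _ => ?_
    simp only [Complex.add_re, Complex.mul_re, Complex.add_im, Complex.mul_im, Complex.ofReal_re,
      Complex.ofReal_im, Complex.I_re, Complex.I_im, Complex.conj_re, Complex.conj_im,
      Complex.div_ofNat_re, Complex.div_ofNat_im]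
    ring
  rw [Complex.add_re, Complex.add_re, Complex.add_re, e3, e4]
  linarith

/-- the integrand -/
noncomputable def FF {m : ℕ} (k0 : ℝ) (k h : Fin m → ℝ) (δ t : ℝ) : ℝ :=
  mz δ t ^ (2 * k0) * ∏ j, mz δ (t + h j) ^ (2 * k j)

lemma prod_eq {m : ℕ} (k0 ξ : ℝ) (k h : Fin m → ℝ) {δ t : ℝ} (hz : 0 < mz δ t) :
    ∏ j, ZZ (riemannZeta (pw δ (t + hh h j))) (bb k0 ξ k j) ((fun _ => 0 : Fin (m + 1) → ℤ) j) =
      ((mz δ t : ℝ) : ℂ) ^ ((ξ : ℂ) * I) * ((FF k0 k h δ t : ℝ) : ℂ) := by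
  rw [Fin.prod_univ_succ]
  simp only [bb0, bbs, hh0, hhs, add_zero]
  have e1 : ∏ j : Fin m, ZZ (riemannZeta (pw δ (t + h j))) (k j : ℂ) 0 =
      ((∏ j, mz δ (t + h j) ^ (2 * k j) : ℝ) : ℂ) := V5helper3.PL.prod_ZZ k h δ t
  rw [e1]
  unfold ZZ FF
  rw [zpow_zero, mul_one]
  change ((mz δ t : ℝ) : ℂ) ^ (2 * ((k0 : ℂ) + ξ / 2 * I)) * _ = _
  have hz' : ((mz δ t : ℝ) : ℂ) ≠ 0 := by exact_mod_cast hz.ne'
  have e2 : (2 * ((k0 : ℂ) + ξ / 2 * I)) = (ξ : ℂ) * I + ((2 * k0 : ℝ) : ℂ) := by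
    push_cast
    ring
  have e3 : ((mz δ t : ℝ) : ℂ) ^ ((2 * k0 : ℝ) : ℂ) = ((mz δ t ^ (2 * k0) : ℝ) : ℂ) :=
    (Complex.ofReal_cpow hz.le _).symm
  rw [e2, Complex.cpow_add _ _ hz', e3, Complex.ofReal_mul, mul_assoc]

lemma expr_eq {m : ℕ} (hL : S_LZB) (k0 : ℝ) (k h : Fin m → ℝ) {δ : ℝ} (h0 : 0 < δ) (h1 : δ ≤ 1 / 16) :
    Real.exp (k0 ^ 2 * (LZ (1 + 2 * δ) 0).re + (∑ j, 2 * (k0 * k j) * (LZ (1 + 2 * δ) (h j)).re) +
        V5helper3.PL.Lr k h δ) =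
      z1 δ 0 ^ (k0 ^ 2) * (∏ j, z1 δ (h j) ^ (2 * (k0 * k j))) * ∏ j, ∏ l, z1 δ (h j - h l) ^ (k j * k l) := by
  have hz : ∀ u : ℝ, Real.exp ((LZ (1 + 2 * δ) u).re) = z1 δ u := by
    intro u
    unfold z1
    rw [← (hL δ h0 h1 u).2, Complex.norm_exp]
  rw [Real.exp_add, Real.exp_add, V5helper3.PL.exp_Lr hL k h h0 h1, Real.exp_sum]
  congr 1
  congr 1
  · rw [mul_comm, Real.exp_mul, hz]
  · refine Finset.prod_congr rfl fun j _ => ?_
    rw [mul_comm, Real.exp_mul, hz]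

/-- **(CJM)** -/
theorem t_CJM (hJ : S_JM) (hP : S_POSV) (hL : S_LZB) (hZ : S_ZB1) : S_CJM := by
  intro m R D hR hD
  obtain ⟨c, C₀, hc, hC₀, hcC⟩ := hP (m + 1) (2 * R) (by linarith)
  obtain ⟨c1, C1, δ1, hc1, hC1, hδ1, hZB⟩ := hZ 1 le_rfl
  refine ⟨(C₀ + c / 2) * Real.exp (R ^ 2 / 4 * |Real.log c1|), by positivity, ?_⟩
  obtain ⟨lam, δ0, hlam, hδ0, hδ01, hev⟩ := hJ (m + 1) (2 * R) D (by linarith) hD (c / 2) (by positivity)
  refine ⟨lam, min δ0 δ1, hlam, lt_min hδ0 hδ1, (min_le_left _ _).trans hδ01, ?_⟩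
  filter_upwards [hev, eventually_gt_atTop (0:ℝ)] with X hX hX0
  intro δ h0 h1 h2 h hhX
  have hδa : δ ≤ δ0 := h1.trans (min_le_left _ _)
  have hδb : δ ≤ δ1 := h1.trans (min_le_right _ _)
  have hδ16 : δ ≤ 1 / 16 := hδa.trans hδ01
  have hHX : ∀ j, |hh h j| ≤ X ^ ((1:ℝ) / 2) := by
    intro j
    refine Fin.cases ?_ (fun j => ?_) j
    · rw [hh0, abs_zero]
      positivity
    · rw [hhs]
      exact hhX j
  obtain ⟨N, hN1, hN2, hN3, hN4, hN5⟩ := hX δ h0 hδa h2 (hh h) hHX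
  have hz0 : ∀ t ∈ N, 0 < mz δ t := by
    intro t ht
    have := hN4 t ht 0
    rw [hh0, add_zero] at this
    exact norm_pos_iff.2 this
  refine ⟨N, hN1, hN2, hN3, fun t ht => ⟨hz0 t ht, fun j => ?_⟩, fun k0 k hk0 hk => ⟨?_, fun ξ hξ => ?_⟩⟩
  · have := hN4 t ht j.succ
    rw [hhs] at this
    exact norm_pos_iff.2 this
  · -- integrability
    obtain ⟨a, hca, haV⟩ := (hcC (hh h)).2 (Matrix.vecCons k0 k) (by
      intro j
      refine Fin.cases ?_ (fun j => ?_) j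
      · simpa using hk0.trans (by linarith)
      · simpa using (hk j).trans (by linarith))
    have ha0 : 0 < a := lt_of_lt_of_le hc hca
    have hkn : ∀ j, ‖V5helper3.PL.cc (Matrix.vecCons k0 k) j‖ ≤ 2 * R := by
      intro j
      unfold V5helper3.PL.cc
      rw [Complex.norm_real, Real.norm_eq_abs]
      refine Fin.cases ?_ (fun j => ?_) j
      · simpa using hk0.trans (by linarith)
      · simpa using (hk j).trans (by linarith)
    have hform := V5helper3.PL.real_form (k := Matrix.vecCons k0 k) (h := hh h) (δ := δ) (T := X) (a := a)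
      (ε := c / 2) (N := N) hX0 ha0.le haV
      (hN5 (V5helper3.PL.cc (Matrix.vecCons k0 k)) (fun _ => 0) hkn (fun j => by simpa using (by linarith)))
    have e1 : V5helper3.PL.G (Matrix.vecCons k0 k) (hh h) δ = fun t => mz δ t ^ (2 * k0) *
        ∏ j, mz δ (t + h j) ^ (2 * k j) := by
      funext t
      unfold V5helper3.PL.G
      rw [Fin.prod_univ_succ]
      simp [hh0, hhs]
    rw [← e1]
    by_contra hni
    have h3 : ∫ t in N, V5helper3.PL.G (Matrix.vecCons k0 k) (hh h) δ t = 0 := integral_undef hni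
    rw [h3, mul_zero, zero_sub, abs_neg, abs_of_nonneg (by positivity)] at hform
    nlinarith
  · -- the bound
    have hbn : ∀ j, ‖bb k0 ξ k j‖ ≤ 2 * R := by
      intro j
      refine Fin.cases ?_ (fun j => ?_) j
      · rw [bb0]
        refine (norm_add_le _ _).trans ?_
        have i1 : ‖(ξ : ℂ) / 2 * I‖ = |ξ| / 2 := by
          rw [norm_mul, Complex.norm_I, mul_one, norm_div, Complex.norm_real, Real.norm_eq_abs]
          simp
        rw [i1, Complex.norm_real, Real.norm_eq_abs]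
        linarith
      · rw [bbs, Complex.norm_real, Real.norm_eq_abs]
        linarith [hk j]
    have hform := hN5 (bb k0 ξ k) (fun _ => 0) hbn (fun j => by simpa using (by linarith))
    rw [V5helper3.PL.sp_zero, V5helper3.PL.sm_zero] at hform
    have haC : ‖aV (bb k0 ξ k) (bb k0 ξ k) (hh h)‖ ≤ C₀ := (hcC (hh h)).1 _ _ hbn hbn
    have e1 : ∫ t in N, ∏ j, ZZ (riemannZeta (pw δ (t + hh h j))) (bb k0 ξ k j) ((fun _ => 0 : Fin (m + 1) → ℤ) j) =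
        ∫ t in N, ((mz δ t : ℝ) : ℂ) ^ ((ξ : ℂ) * I) * ((FF k0 k h δ t : ℝ) : ℂ) :=
      setIntegral_congr_fun hN1 fun t ht => prod_eq k0 ξ k h (hz0 t ht)
    rw [e1] at hform
    change ‖∫ t in N, ((mz δ t : ℝ) : ℂ) ^ ((ξ : ℂ) * I) * ((FF k0 k h δ t : ℝ) : ℂ)‖ ≤ _
    set J := ∫ t in N, ((mz δ t : ℝ) : ℂ) ^ ((ξ : ℂ) * I) * ((FF k0 k h δ t : ℝ) : ℂ) with hJd
    set L := LM (bb k0 ξ k) (bb k0 ξ k) (hh h) δ with hLd
    set A := aV (bb k0 ξ k) (bb k0 ξ k) (hh h) with hA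
    have h3 : ‖Complex.exp (-L) * J‖ ≤ X * (C₀ + c / 2) := by
      calc ‖Complex.exp (-L) * J‖ = ‖(Complex.exp (-L) * J - X * A) + X * A‖ := by rw [sub_add_cancel]
        _ ≤ c / 2 * X + ‖(X : ℂ) * A‖ := (norm_add_le _ _).trans (add_le_add_left hform _)
        _ ≤ c / 2 * X + X * C₀ := by
          rw [norm_mul, Complex.norm_real, Real.norm_of_nonneg hX0.le]
          gcongr
        _ = _ := by ring
    have h4 : J = Complex.exp L * (Complex.exp (-L) * J) := by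
      rw [← mul_assoc, ← Complex.exp_add, add_neg_cancel, Complex.exp_zero, one_mul]
    have h5 : ‖J‖ ≤ Real.exp L.re * (X * (C₀ + c / 2)) := by
      rw [h4, norm_mul, Complex.norm_exp]
      exact mul_le_mul_of_nonneg_left h3 (Real.exp_pos _).le
    refine h5.trans ?_
    rw [← expr_eq hL k0 k h h0 hδ16]
    set M0 := k0 ^ 2 * (LZ (1 + 2 * δ) 0).re + (∑ j, 2 * (k0 * k j) * (LZ (1 + 2 * δ) (h j)).re) +
      V5helper3.PL.Lr k h δ with hM0
    have h6 : L.re ≤ M0 + (-(ξ ^ 2 / 4) * Real.log (1 / δ) + R ^ 2 / 4 * |Real.log c1|) := by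
      rw [hLd, re_LM h0]
      have i1 : Real.log (1 / δ) - |Real.log c1| ≤ (LZ (1 + 2 * δ) 0).re := by
        have j1 := (hZB δ h0 hδb 0 (by simp)).1
        rw [abs_zero, max_eq_right h0.le] at j1
        have j2 : Real.exp ((LZ (1 + 2 * δ) 0).re) = z1 δ 0 := by
          unfold z1
          rw [← (hL δ h0 hδ16 0).2, Complex.norm_exp]
        have j3 : c1 * (1 / δ) ≤ Real.exp ((LZ (1 + 2 * δ) 0).re) := by
          rw [j2, mul_one_div, div_le_iff₀ h0]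
          exact j1
        have j4 : Real.log (c1 * (1 / δ)) ≤ (LZ (1 + 2 * δ) 0).re := by
          have := Real.log_le_log (by positivity) j3
          rwa [Real.log_exp] at this
        rw [Real.log_mul hc1.ne' (by positivity)] at j4
        have := neg_abs_le (Real.log c1)
        linarith
      have i2 : ξ ^ 2 / 4 * |Real.log c1| ≤ R ^ 2 / 4 * |Real.log c1| := by
        refine mul_le_mul_of_nonneg_right ?_ (abs_nonneg _)
        have := sq_le_sq' (neg_le_of_abs_le hξ) (le_of_abs_le hξ)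
        linarith
      have i3 := mul_le_mul_of_nonneg_left i1 (show 0 ≤ ξ ^ 2 / 4 by positivity)
      rw [hM0]
      linarith
    calc Real.exp L.re * (X * (C₀ + c / 2)) ≤
        Real.exp (M0 + (-(ξ ^ 2 / 4) * Real.log (1 / δ) + R ^ 2 / 4 * |Real.log c1|)) * (X * (C₀ + c / 2)) :=
          mul_le_mul_of_nonneg_right (Real.exp_le_exp.2 h6) (by positivity)
      _ = (C₀ + c / 2) * Real.exp (R ^ 2 / 4 * |Real.log c1|) * X * Real.exp (-(ξ ^ 2 / 4) * Real.log (1 / δ)) *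
          Real.exp M0 := by
        rw [Real.exp_add M0, Real.exp_add (-(ξ ^ 2 / 4) * Real.log (1 / δ))]
        ring

end Pool.Agent.V5helper7.EG.CJM
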